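import Pool.Agent.Helper37.KF.Stmts

/-! # The Komlos problem: the rank function (module 13) -/

namespace Pool.Agent.Helper2.KF

open Finset
open scoped Classical
open Pool.Agent.Helper37.KF

theorem gg_val : gg = 41 := rfl

theorem Ga_val : Ga = 1681 := by unfold Ga gg; norm_num

theorem Ga_pos : (0 : ℝ) < Ga := by rw [Ga_val]; norm_num

theorem c0_pos : (0 : ℝ) < c0 := by unfold c0; norm_num

theorem geo (m : ℕ) : ∑ j ∈ range m, Ga ^ j ≤ Ga ^ m / 1680 := by
  have h : Ga ≠ 1 := by rw [Ga_val]; norm_num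
  rw [geom_sum_eq h]
  have h1 : Ga - 1 = 1680 := by rw [Ga_val]; norm_num
  rw [h1]
  apply div_le_div_of_nonneg_right _ (by norm_num)
  linarith

theorem ite_sum (N m : ℕ) (x : ℝ) (hx : 0 ≤ x) :
    ∑ j ∈ range N, Ga ^ j * (if j < m then x else 0) ≤ (∑ j ∈ range m, Ga ^ j) * x := by
  have hG := Ga_pos
  have h1 : ∑ j ∈ range N, Ga ^ j * (if j < m then x else 0) =
      ∑ j ∈ (range N).filter (fun j => j < m), Ga ^ j * x := by
    rw [Finset.sum_filter]
    exact Finset.sum_congr rfl fun j _ => by split_ifs <;> simp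
  rw [h1, Finset.sum_mul]
  apply Finset.sum_le_sum_of_subset_of_nonneg
  · intro j hj
    simp only [Finset.mem_filter, Finset.mem_range] at hj ⊢
    exact hj.2
  · intro j _ _
    positivity

variable {V R : Type} [Fintype V] [Fintype R]

/-- raise one column -/
noncomputable def up (k : V → ℕ) (u : V) : V → ℕ := Function.update k u (k u + 1)

omit [Fintype V] in
theorem up_self (k : V → ℕ) (u : V) : up k u u = k u + 1 := by simp [up]

omit [Fintype V] in
theorem up_ne (k : V → ℕ) (u v : V) (h : v ≠ u) : up k u v = k v := by simp [up, h]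

omit [Fintype V] in
theorem sw_ne (k : V → ℕ) (u v : V) (i : ℕ) (h : v ≠ u) : sw (up k u) i v = sw k i v := by
  unfold sw; rw [up_ne _ _ _ h]

theorem TT_up (k : V → ℕ) (u : V) (j : ℕ) (h : j ≠ k u) : TT (up k u) j = TT k j := by
  ext v
  unfold TT
  simp only [Finset.mem_filter, Finset.mem_univ, true_and]
  by_cases hv : v = u
  · subst hv
    rw [up_self]
    omega
  · rw [up_ne _ _ _ hv]

theorem EE_up (k : V → ℕ) (u : V) (j : ℕ) (h : j ≠ k u) (h' : j ≠ k u + 1) :
    EE (up k u) j = EE k j := by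
  ext v
  unfold EE
  simp only [Finset.mem_filter, Finset.mem_univ, true_and]
  by_cases hv : v = u
  · subst hv
    rw [up_self]
    omega
  · rw [up_ne _ _ _ hv]

theorem EE_up1 (k : V → ℕ) (u : V) : EE (up k u) (k u + 1) = insert u (EE k (k u + 1)) := by
  ext v
  unfold EE
  simp only [Finset.mem_filter, Finset.mem_univ, true_and, Finset.mem_insert]
  by_cases hv : v = u
  · subst hv
    rw [up_self]
    simp
  · rw [up_ne _ _ _ hv]
    simp [hv]

theorem TT_up0 (k : V → ℕ) (u : V) : TT (up k u) (k u) = insert u (TT k (k u)) := by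
  ext v
  unfold TT
  simp only [Finset.mem_filter, Finset.mem_univ, true_and, Finset.mem_insert]
  by_cases hv : v = u
  · subst hv
    rw [up_self]
    simp
  · rw [up_ne _ _ _ hv]
    simp [hv]

theorem EE_up0 (k : V → ℕ) (u : V) : EE (up k u) (k u) = (EE k (k u)).erase u := by
  ext v
  unfold EE
  simp only [Finset.mem_filter, Finset.mem_univ, true_and, Finset.mem_erase]
  by_cases hv : v = u
  · subst hv
    rw [up_self]
    simp
  · rw [up_ne _ _ _ hv]
    simp [hv]

/-! ## row masses -/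

omit [Fintype R] in
theorem rr_nonneg (a : V → R → ℝ) (k : V → ℕ) (j : ℕ) (S : R) : 0 ≤ rr a k j S :=
  Finset.sum_nonneg fun _ _ => sq_nonneg _

omit [Fintype R] in
theorem rr_up (a : V → R → ℝ) (k : V → ℕ) (u : V) (j : ℕ) (h : j ≠ k u + 1) (S : R) :
    rr a (up k u) j S = rr a k j S := by
  unfold rr
  congr 1
  ext v
  simp only [Finset.mem_filter, Finset.mem_univ, true_and]
  by_cases hv : v = u
  · subst hv
    rw [up_self]
    omega
  · rw [up_ne _ _ _ hv]

omit [Fintype R] in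
theorem rr_up1 (a : V → R → ℝ) (k : V → ℕ) (u : V) (S : R) :
    rr a (up k u) (k u + 1) S = rr a k (k u + 1) S + a u S ^ 2 := by
  unfold rr
  have e : Finset.univ.filter (fun v => k u + 1 ≤ up k u v) =
      insert u (Finset.univ.filter (fun v => k u + 1 ≤ k v)) := by
    ext v
    simp only [Finset.mem_filter, Finset.mem_univ, true_and, Finset.mem_insert]
    by_cases hv : v = u
    · subst hv
      rw [up_self]
      simp
    · rw [up_ne _ _ _ hv]
      simp [hv]
  rw [e, Finset.sum_insert (by simp), add_comm]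

/-- the exponent of a row -/
noncomputable def xe (a : V → R → ℝ) (J M : ℕ) (k : V → ℕ) (i : ℕ) (S : R) : ℝ :=
  ex (fun j => rr a k j S) J M i

omit [Fintype R] in
theorem xe_nonneg (a : V → R → ℝ) (J M : ℕ) (k : V → ℕ) (i : ℕ) (S : R) : 0 ≤ xe a J M k i S := by
  unfold xe ex
  exact Finset.sum_nonneg fun _ _ => le_max_left _ _

omit [Fintype R] in
theorem lm_eq (a : V → R → ℝ) (l0 : ℝ) (J M : ℕ) (k : V → ℕ) (i : ℕ) :
    lm a l0 J M k i = fun S => l0 * Real.exp (-xe a J M k i S) := rfl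

omit [Fintype R] in
theorem lm_pos (a : V → R → ℝ) (l0 : ℝ) (hl0 : 0 < l0) (J M : ℕ) (k : V → ℕ) (i : ℕ) (S : R) :
    0 < lm a l0 J M k i S := mul_pos hl0 (Real.exp_pos _)

/-- logarithm of the partition function at level `i` -/
noncomputable def LZ (a : V → R → ℝ) (b l0 : ℝ) (J M : ℕ) (k : V → ℕ) (i : ℕ) : ℝ :=
  Real.log (ZZ a b c0 (lm a l0 J M k i) (sw k i) (TT k i) (EE k i))

/-- change of the exponent -/
noncomputable def dx (a : V → R → ℝ) (J M : ℕ) (k : V → ℕ) (u : V) (i : ℕ) (S : R) : ℝ :=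
  xe a J M (up k u) i S - xe a J M k i S

/-- properties of the exponents which are used -/
def EXP (δ : ℝ) (J : ℕ) : Prop :=
  (∀ (r : ℕ → ℝ) (M N : ℕ), (∀ j, 0 ≤ r j) →
    ∑ i ∈ Finset.range N, Ga ^ i * ex r J M i ≤ δ * ∑ j ∈ Finset.range M, Ga ^ j * r j) ∧
  (∀ (r r' : ℕ → ℝ) (M N i : ℕ) (x : ℝ), (∀ j, 0 ≤ r j) → 0 ≤ x → (∀ j, j ≠ i + 1 → r' j = r j) →
    r' (i + 1) = r (i + 1) + x →
    (∀ l, ex r J M l ≤ ex r' J M l) ∧
    ∑ l ∈ Finset.range N, Ga ^ l * (ex r' J M l - ex r J M l) ≤ δ * Ga ^ i * x)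

omit [Fintype R] in
theorem dx_prop (a : V → R → ℝ) (δ : ℝ) (J : ℕ) (hJ : EXP δ J) (M N : ℕ) (k : V → ℕ) (u : V)
    (S : R) : (∀ l, 0 ≤ dx a J M k u l S) ∧
      ∑ l ∈ range N, Ga ^ l * dx a J M k u l S ≤ δ * Ga ^ (k u) * a u S ^ 2 := by
  obtain ⟨h1, h2⟩ := hJ.2 (fun j => rr a k j S) (fun j => rr a (up k u) j S) M N (k u) (a u S ^ 2)
    (fun j => rr_nonneg a k j S) (sq_nonneg _) (fun j hj => rr_up a k u j hj S) (rr_up1 a k u S)
  exact ⟨fun l => sub_nonneg.mpr (h1 l), h2⟩

omit [Fintype R] in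
theorem lm_up (a : V → R → ℝ) (l0 : ℝ) (J M : ℕ) (k : V → ℕ) (u : V) (i : ℕ) :
    lm a l0 J M (up k u) i = fun S => lm a l0 J M k i S * Real.exp (-dx a J M k u i S) := by
  funext S
  rw [lm_eq, lm_eq]
  show l0 * Real.exp (-xe a J M (up k u) i S) =
    l0 * Real.exp (-xe a J M k i S) * Real.exp (-dx a J M k u i S)
  rw [mul_assoc, ← Real.exp_add]
  unfold dx
  congr 2
  ring

theorem lz_cmp (hchg : ST_CHG) (a : V → R → ℝ) (b l0 : ℝ) (hb : 0 ≤ b) (hl0 : 0 < l0) (δ : ℝ)
    (J : ℕ) (hJ : EXP δ J) (M : ℕ) (k : V → ℕ) (u : V) (j : ℕ) (hj : j ≠ k u) :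
    LZ a b l0 J M (up k u) j ≤ LZ a b l0 J M k j + ((if j < k u then b / 3 else 0) +
      (if j = k u + 1 then b * c0 else 0) + 3 * ∑ S, dx a J M k u j S) := by
  unfold LZ
  rw [lm_up]
  have h1 := (hchg V R a b c0 (lm a l0 J M k j) (sw (up k u) j) (TT (up k u) j) (EE (up k u) j) u
    hb c0_pos.le (lm_pos a l0 hl0 J M k j)).2.2 (dx a J M k u j)
    (fun S => (dx_prop a δ J hJ M 0 k u S).1 j)
  refine h1.trans ?_
  rw [TT_up k u j hj]
  by_cases h2 : j < k u
  · rw [if_pos h2, if_neg (by omega), EE_up k u j hj (by omega)]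
    have h3 := (hchg V R a b c0 (lm a l0 J M k j) (sw k j) (TT k j) (EE k j) u
      hb c0_pos.le (lm_pos a l0 hl0 J M k j)).1 (sw (up k u) j) (by
        unfold sw
        rw [up_self]
        have : k u + 1 - j - 1 = (k u - j - 1) + 1 := by omega
        rw [this, pow_succ]
        field_simp) (fun v hv => sw_ne k u v j hv)
    linarith
  · rw [if_neg h2]
    have e : sw (up k u) j = sw k j := by
      funext v
      by_cases hv : v = u
      · rw [hv]
        unfold sw
        rw [up_self]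
        have : k u + 1 - j - 1 = k u - j - 1 := by omega
        rw [this]
      · exact sw_ne k u v j hv
    rw [e]
    by_cases h3 : j = k u + 1
    · rw [if_pos h3]
      have h4 := (hchg V R a b c0 (lm a l0 J M k j) (sw k j) (TT k j) (EE k j) u
        hb c0_pos.le (lm_pos a l0 hl0 J M k j)).2.1
      have h5 : EE (up k u) j = insert u (EE k j) := by
        rw [h3]; exact EE_up1 k u
      rw [h5]
      linarith
    · rw [if_neg h3, EE_up k u j hj h3]
      linarith

theorem lz_gain (hchg : ST_CHG) (hgain : ST_GAIN) (a : V → R → ℝ) (b l0 : ℝ) (hb : 0 ≤ b)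
    (hb1 : b ≤ 1) (hl0 : 0 < l0) (δ : ℝ) (J : ℕ) (hJ : EXP δ J) (M : ℕ) (k : V → ℕ) (u : V)
    (hH : ¬ Happy a b c0 (1 / 100) (lm a l0 J M k (k u)) (sw k (k u)) (TT k (k u))
      (EE k (k u)) u) :
    LZ a b l0 J M (up k u) (k u) ≤ LZ a b l0 J M k (k u) - b / 200 +
      3 * ∑ S, dx a J M k u (k u) S := by
  unfold LZ
  rw [lm_up]
  have h1 := (hchg V R a b c0 (lm a l0 J M k (k u)) (sw (up k u) (k u)) (TT (up k u) (k u))
    (EE (up k u) (k u)) u hb c0_pos.le (lm_pos a l0 hl0 J M k (k u))).2.2 (dx a J M k u (k u))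
    (fun S => (dx_prop a δ J hJ M 0 k u S).1 (k u))
  refine h1.trans ?_
  rw [TT_up0, EE_up0]
  have h := hgain V R a b c0 (1 / 100) (lm a l0 J M k (k u)) (sw k (k u)) (sw (up k u) (k u))
    (TT k (k u)) (EE k (k u)) u hb hb1 c0_pos.le (by norm_num) (lm_pos a l0 hl0 J M k (k u))
    (by unfold EE; simp) (by unfold TT; simp) (by unfold sw; rw [up_self]; simp)
    (fun v hv => sw_ne k u v (k u) hv) hH
  linarith

/-- the functional which is minimised -/
noncomputable def WW (a : V → R → ℝ) (b l0 : ℝ) (J M N : ℕ) (k : V → ℕ) : ℝ :=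
  ∑ j ∈ range N, Ga ^ j * (LZ a b l0 J M k j + b / 1600 * (TT k j).card)

theorem rr_total (a : V → R → ℝ) (hcol : ∀ v, ∑ S, a v S ^ 2 ≤ 1) (k : V → ℕ) (j : ℕ) :
    ∑ S, rr a k j S ≤ (Finset.univ.filter (fun v => j ≤ k v)).card := by
  unfold rr
  rw [Finset.sum_comm]
  refine (Finset.sum_le_sum fun v _ => hcol v).trans ?_
  simp

/-- the total of the exponents -/
theorem xe_total (a : V → R → ℝ) (hcol : ∀ v, ∑ S, a v S ^ 2 ≤ 1) (δ : ℝ) (hδ : 0 ≤ δ) (J : ℕ)
    (hJ : EXP δ J) (N : ℕ) (k : V → ℕ) :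
    ∑ j ∈ range N, Ga ^ j * ∑ S, xe a J (N + 1) k j S ≤
      δ * (Fintype.card V + Ga * ∑ j ∈ range N, Ga ^ j * ((TT k j).card : ℝ)) := by
  have hG := Ga_pos
  have h1 : ∑ j ∈ range N, Ga ^ j * ∑ S, xe a J (N + 1) k j S =
      ∑ S, ∑ j ∈ range N, Ga ^ j * xe a J (N + 1) k j S := by
    rw [Finset.sum_comm]
    exact Finset.sum_congr rfl fun j _ => Finset.mul_sum _ _ _
  rw [h1]
  have h2 : ∑ S, ∑ j ∈ range N, Ga ^ j * xe a J (N + 1) k j S ≤
      ∑ S, δ * ∑ j ∈ range (N + 1), Ga ^ j * rr a k j S :=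
    Finset.sum_le_sum fun S _ => hJ.1 (fun j => rr a k j S) (N + 1) N
      (fun j => rr_nonneg a k j S)
  refine h2.trans ?_
  rw [← Finset.mul_sum]
  apply mul_le_mul_of_nonneg_left _ hδ
  rw [Finset.sum_comm]
  have h3 : ∀ j, ∑ S, Ga ^ j * rr a k j S ≤
      Ga ^ j * ((Finset.univ.filter (fun v => j ≤ k v)).card : ℝ) := by
    intro j
    rw [← Finset.mul_sum]
    exact mul_le_mul_of_nonneg_left (rr_total a hcol k j) (by positivity)
  refine (Finset.sum_le_sum fun j _ => h3 j).trans ?_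
  rw [Finset.sum_range_succ']
  have h4 : ∑ j ∈ range N, Ga ^ (j + 1) *
      ((Finset.univ.filter (fun v => j + 1 ≤ k v)).card : ℝ) =
      Ga * ∑ j ∈ range N, Ga ^ j * ((TT k j).card : ℝ) := by
    rw [Finset.mul_sum]
    apply Finset.sum_congr rfl
    intro j _
    rw [pow_succ]
    have : (Finset.univ.filter (fun v => j + 1 ≤ k v)) = TT k j := by
      unfold TT
      ext v
      simp only [Finset.mem_filter, Finset.mem_univ, true_and]
      omega
    rw [this]
    ring
  rw [h4]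
  simp [add_comm]

theorem W_low (a : V → R → ℝ) (hcol : ∀ v, ∑ S, a v S ^ 2 ≤ 1) (b l0 : ℝ) (hb : 0 < b)
    (hl0 : 0 < l0) (J N : ℕ) (δ : ℝ) (hδ : 0 ≤ δ) (hδ1 : δ * Ga ≤ b / 6400) (hJ : EXP δ J)
    (k : V → ℕ) (C : ℝ)
    (hlow : ∀ (V R : Type) [Fintype V] [Fintype R]
      (a : V → R → ℝ) (b c l0 : ℝ)
      (e : R → ℝ) (s : V → ℝ) (T E : Finset V), 0 ≤ b → 0 ≤ c → 0 < l0 → (∀ v, ∑ S, a v S ^ 2 ≤ 1) →
      (∀ v, 0 ≤ s v) → (∀ v, s v ≤ 1) → (∀ S, 0 ≤ e S) →
      - (∑ S, e S) - C * b / l0 ^ 2 * T.card ≤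
        Real.log (ZZ a b c (fun S => l0 * Real.exp (-e S)) s T E))
    (hC : C * b / l0 ^ 2 ≤ b / 6400) :
    b / 3200 * ∑ j ∈ range N, Ga ^ j * ((TT k j).card : ℝ) - δ * Fintype.card V ≤
      WW a b l0 J (N + 1) N k := by
  have hG := Ga_pos
  have h1 : ∀ j, -(∑ S, xe a J (N + 1) k j S) - b / 6400 * (TT k j).card ≤
      LZ a b l0 J (N + 1) k j := by
    intro j
    have h2 := hlow V R a b c0 l0 (fun S => xe a J (N + 1) k j S) (sw k j) (TT k j) (EE k j) hb.le
      c0_pos.le hl0 hcol (fun v => by unfold sw; positivity) (fun v => by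
        unfold sw
        rw [div_le_one (by positivity)]
        exact one_le_pow₀ (by norm_num)) (fun S => xe_nonneg a J (N + 1) k j S)
    have h3 : LZ a b l0 J (N + 1) k j = Real.log (ZZ a b c0
      (fun S => l0 * Real.exp (-xe a J (N + 1) k j S)) (sw k j) (TT k j) (EE k j)) := rfl
    rw [h3]
    refine le_trans ?_ h2
    have h6 : C * b / l0 ^ 2 * ((TT k j).card : ℝ) ≤ b / 6400 * (TT k j).card :=
      mul_le_mul_of_nonneg_right hC (Nat.cast_nonneg _)
    linarith
  have h8 := xe_total a hcol δ hδ J hJ N k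
  set B := ∑ j ∈ range N, Ga ^ j * ((TT k j).card : ℝ) with hB
  have hB0 : 0 ≤ B := Finset.sum_nonneg fun j _ => by positivity
  unfold WW
  have h16 : ∑ j ∈ range N, Ga ^ j * (-(∑ S, xe a J (N + 1) k j S)
      - b / 6400 * (TT k j).card + b / 1600 * (TT k j).card) ≤
      ∑ j ∈ range N, Ga ^ j * (LZ a b l0 J (N + 1) k j + b / 1600 * (TT k j).card) := by
    apply Finset.sum_le_sum
    intro j _
    apply mul_le_mul_of_nonneg_left _ (by positivity)
    have := h1 j
    linarith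
  refine le_trans ?_ h16
  have h17 : ∑ j ∈ range N, Ga ^ j * (-(∑ S, xe a J (N + 1) k j S)
      - b / 6400 * (TT k j).card + b / 1600 * (TT k j).card) =
      - (∑ j ∈ range N, Ga ^ j * ∑ S, xe a J (N + 1) k j S) +
      (b / 1600 - b / 6400) * B := by
    rw [hB, Finset.mul_sum, ← Finset.sum_neg_distrib, ← Finset.sum_add_distrib]
    apply Finset.sum_congr rfl
    intro j _
    ring
  rw [h17]
  have h18 : δ * Ga * B ≤ b / 6400 * B := mul_le_mul_of_nonneg_right hδ1 hB0
  have h19 : δ * (Fintype.card V + Ga * B) = δ * Fintype.card V + δ * Ga * B := by ring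
  rw [h19] at h8
  have h20 : (b / 1600 - b / 6400) * B = b / 3200 * B + b / 6400 * B := by ring
  rw [h20]
  linarith

theorem W_up (hchg : ST_CHG) (hgain : ST_GAIN) (a : V → R → ℝ)
    (hcol : ∀ v, ∑ S, a v S ^ 2 ≤ 1) (b l0 : ℝ) (hb : 0 < b) (hb1 : b ≤ 1) (hl0 : 0 < l0)
    (J M N : ℕ) (δ : ℝ) (hδ : 0 ≤ δ) (hδ1 : δ * Ga ≤ b / 6400) (hJ : EXP δ J) (k : V → ℕ) (u : V)
    (hu : k u < N)
    (hH : ¬ Happy a b c0 (1 / 100) (lm a l0 J M k (k u)) (sw k (k u)) (TT k (k u))
      (EE k (k u)) u) :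
    WW a b l0 J M N (up k u) < WW a b l0 J M N k := by
  have hG := Ga_pos
  have hlev : ∀ j, LZ a b l0 J M (up k u) j + b / 1600 * (TT (up k u) j).card ≤
      LZ a b l0 J M k j + b / 1600 * (TT k j).card + ((if j < k u then b / 3 else 0) +
      (if j = k u + 1 then b * c0 else 0) + 3 * ∑ S, dx a J M k u j S +
      (if j = k u then - b / 200 + b / 1600 else 0)) := by
    intro j
    by_cases hj : j = k u
    · have h1 := lz_gain hchg hgain a b l0 hb.le hb1 hl0 δ J hJ M k u hH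
      have h2 : (TT (up k u) (k u)).card = (TT k (k u)).card + 1 := by
        rw [TT_up0]
        apply Finset.card_insert_of_notMem
        unfold TT
        simp
      rw [hj, h2, if_neg (lt_irrefl _), if_neg (by omega), if_pos rfl]
      push_cast
      linarith
    · have h1 := lz_cmp hchg a b l0 hb.le hl0 δ J hJ M k u j hj
      rw [TT_up k u j hj, if_neg hj]
      linarith
  unfold WW
  have h2 : ∑ j ∈ range N, Ga ^ j * (LZ a b l0 J M (up k u) j + b / 1600 * (TT (up k u) j).card) ≤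
      ∑ j ∈ range N, (Ga ^ j * (LZ a b l0 J M k j + b / 1600 * (TT k j).card) +
      (Ga ^ j * (if j < k u then b / 3 else 0) +
      Ga ^ j * (if j = k u + 1 then b * c0 else 0) +
      3 * (Ga ^ j * ∑ S, dx a J M k u j S) +
      Ga ^ j * (if j = k u then - b / 200 + b / 1600 else 0))) := by
    apply Finset.sum_le_sum
    intro j _
    have := mul_le_mul_of_nonneg_left (hlev j) (show 0 ≤ Ga ^ j by positivity)
    refine this.trans (le_of_eq ?_)
    generalize (if j < k u then b / 3 else 0) = A1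
    generalize (if j = k u + 1 then b * c0 else 0) = A3
    generalize (if j = k u then - b / 200 + b / 1600 else 0) = A4
    ring
  refine lt_of_le_of_lt h2 ?_
  rw [Finset.sum_add_distrib, Finset.sum_add_distrib, Finset.sum_add_distrib,
    Finset.sum_add_distrib, ← Finset.mul_sum]
  have s1 : ∑ j ∈ range N, Ga ^ j * (if j < k u then b / 3 else 0) ≤ Ga ^ (k u) / 1680 * (b / 3) :=
    (ite_sum N (k u) (b / 3) (by positivity)).trans
      (mul_le_mul_of_nonneg_right (geo _) (by positivity))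
  have s2 : ∑ j ∈ range N, Ga ^ j * ∑ S, dx a J M k u j S ≤ δ * Ga ^ (k u) := by
    have h1 : ∑ j ∈ range N, Ga ^ j * ∑ S, dx a J M k u j S =
        ∑ S, ∑ j ∈ range N, Ga ^ j * dx a J M k u j S := by
      rw [Finset.sum_comm]
      exact Finset.sum_congr rfl fun j _ => Finset.mul_sum _ _ _
    rw [h1]
    refine (Finset.sum_le_sum fun S _ => (dx_prop a δ J hJ M N k u S).2).trans ?_
    rw [← Finset.mul_sum]
    calc δ * Ga ^ (k u) * ∑ S, a u S ^ 2 ≤ δ * Ga ^ (k u) * 1 :=
          mul_le_mul_of_nonneg_left (hcol u) (by positivity)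
      _ = _ := mul_one _
  have s3 : ∑ j ∈ range N, Ga ^ j * (if j = k u + 1 then b * c0 else 0) ≤ Ga ^ (k u + 1) * (b * c0) := by
    have : ∀ j, Ga ^ j * (if j = k u + 1 then b * c0 else 0) =
        (if j = k u + 1 then Ga ^ (k u + 1) * (b * c0) else 0) := by
      intro j
      split_ifs with h
      · rw [h]
      · simp
    simp only [this, Finset.sum_ite_eq']
    have hc := c0_pos
    split_ifs
    · exact le_refl _
    · positivity
  have s4 : ∑ j ∈ range N, Ga ^ j * (if j = k u then - b / 200 + b / 1600 else 0) =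
      Ga ^ (k u) * (- b / 200 + b / 1600) := by
    have : ∀ j, Ga ^ j * (if j = k u then - b / 200 + b / 1600 else 0) =
        (if j = k u then Ga ^ (k u) * (- b / 200 + b / 1600) else 0) := by
      intro j
      split_ifs with h
      · rw [h]
      · simp
    simp only [this, Finset.sum_ite_eq', Finset.mem_range, hu, if_true]
  have s2' : δ * Ga ^ (k u) ≤ b / 6400 * Ga ^ (k u) := by
    apply mul_le_mul_of_nonneg_right _ (by positivity)
    have : δ * 1 ≤ δ * Ga := mul_le_mul_of_nonneg_left (by rw [Ga_val]; norm_num) hδ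
    linarith
  have s3' : Ga ^ (k u + 1) * (b * c0) = Ga ^ (k u) * (b / 1600) := by
    rw [pow_succ, Ga_val]
    unfold c0
    ring
  have hpos : 0 < Ga ^ (k u) * b := by positivity
  nlinarith

/-- module 13 -/
theorem st_rank (hchg : ST_CHG) (hgain : ST_GAIN) (hlow' : ST_LOW) (hup : ST_UP) (hexp : ST_EXP) :
    ST_RANK := by
  obtain ⟨Cl, hCl, hlow⟩ := hlow'
  have hG := Ga_pos
  set l0 : ℝ := Real.sqrt (6400 * Cl) with hl0d
  have hl0 : 0 < l0 := Real.sqrt_pos.mpr (by positivity)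
  have hl0sq : l0 ^ 2 = 6400 * Cl := Real.sq_sqrt (by positivity)
  refine ⟨l0, hl0, ?_⟩
  intro b hb hb1
  set δ : ℝ := b / (6400 * Ga) with hδd
  have hδ : 0 < δ := by positivity
  have hδ1 : δ * Ga ≤ b / 6400 := by
    apply le_of_eq
    rw [hδd]
    field_simp
  obtain ⟨J, hJ⟩ := hexp δ hδ
  have hJ' : EXP δ J := hJ
  refine ⟨J, ?_⟩
  intro V R _ _ a hcol
  -- number of levels
  obtain ⟨K0, hK0⟩ := pow_unbounded_of_one_lt ((b * c0 * Fintype.card V + δ * Fintype.card V)
    / (b / 3200)) (show (1 : ℝ) < Ga by rw [Ga_val]; norm_num)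
  set N := K0 + 1 with hN
  -- minimise
  obtain ⟨κ, -, hκ⟩ := Finset.exists_min_image (Finset.univ : Finset (V → Fin (N + 1)))
    (fun κ => WW a b l0 J (N + 1) N (fun v => (κ v : ℕ))) ⟨fun _ => 0, Finset.mem_univ _⟩
  set k : V → ℕ := fun v => (κ v : ℕ) with hk
  have hkN : ∀ v, k v ≤ N := fun v => Nat.lt_succ_iff.mp (κ v).2
  have hmin : ∀ k' : V → ℕ, (∀ v, k' v ≤ N) →
      WW a b l0 J (N + 1) N k ≤ WW a b l0 J (N + 1) N k' := by
    intro k' hk'
    have := hκ (fun v => ⟨k' v, Nat.lt_succ_iff.mpr (hk' v)⟩) (Finset.mem_univ _)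
    exact this
  have hW0 : WW a b l0 J (N + 1) N k ≤ b * c0 * Fintype.card V := by
    refine (hmin (fun _ => 0) (fun _ => Nat.zero_le _)).trans ?_
    unfold WW
    have h1 : ∀ j ∈ range N, Ga ^ j * (LZ a b l0 J (N + 1) (fun _ => 0) j +
        b / 1600 * ((TT (fun _ : V => 0) j).card : ℝ)) ≤
        (if j = 0 then b * c0 * Fintype.card V else 0) := by
      intro j _
      have hT : TT (fun _ : V => 0) j = ∅ := by
        unfold TT; simp
      have h2 := hup V R a b c0 (lm a l0 J (N + 1) (fun _ => 0) j) (sw (fun _ => 0) j)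
        (TT (fun _ => 0) j) (EE (fun _ => 0) j) hb.le c0_pos.le (lm_pos a l0 hl0 J _ _ j)
      have h3 : LZ a b l0 J (N + 1) (fun _ => 0) j ≤ b * c0 * ((EE (fun _ : V => 0) j).card : ℝ) := h2
      rw [hT, Finset.card_empty, Nat.cast_zero, mul_zero, add_zero]
      by_cases hj : j = 0
      · rw [if_pos hj, hj, pow_zero, one_mul]
        rw [hj] at h3
        have h4 : EE (fun _ : V => 0) 0 = Finset.univ := by
          unfold EE; simp
        rw [h4, Finset.card_univ] at h3
        exact h3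
      · rw [if_neg hj]
        have h4 : EE (fun _ : V => 0) j = ∅ := by
          unfold EE
          simp [Ne.symm hj]
        rw [h4, Finset.card_empty, Nat.cast_zero, mul_zero] at h3
        exact mul_nonpos_of_nonneg_of_nonpos (by positivity) h3
    refine (Finset.sum_le_sum h1).trans ?_
    rw [Finset.sum_ite_eq']
    have hc := c0_pos
    split_ifs
    · exact le_refl _
    · positivity
  have hCb : Cl * b / l0 ^ 2 ≤ b / 6400 := by
    rw [hl0sq]
    apply le_of_eq
    field_simp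
  have hWl := W_low a hcol b l0 hb hl0 J N δ hδ.le hδ1 hJ' k Cl hlow hCb
  -- the last level is empty
  have hlast : ∀ v, k v < N := by
    intro v
    by_contra hcon
    push Not at hcon
    have h1 : 1 ≤ (TT k K0).card := by
      apply Finset.card_pos.mpr
      refine ⟨v, ?_⟩
      unfold TT
      simp only [Finset.mem_filter, Finset.mem_univ, true_and]
      omega
    have h2 : Ga ^ K0 * ((TT k K0).card : ℝ) ≤ ∑ j ∈ range N, Ga ^ j * ((TT k j).card : ℝ) :=
      Finset.single_le_sum (f := fun j => Ga ^ j * ((TT k j).card : ℝ))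
        (fun j _ => by positivity) (Finset.mem_range.mpr (by omega))
    have h3 : Ga ^ K0 * 1 ≤ Ga ^ K0 * ((TT k K0).card : ℝ) :=
      mul_le_mul_of_nonneg_left (by exact_mod_cast h1) (by positivity)
    have h4 : b / 3200 * Ga ^ K0 ≤ b * c0 * Fintype.card V + δ * Fintype.card V := by
      have := mul_le_mul_of_nonneg_left (h3.trans h2) (show 0 ≤ b / 3200 by positivity)
      linarith
    rw [div_lt_iff₀ (by positivity)] at hK0
    linarith
  refine ⟨k, N + 1, fun v => lt_of_lt_of_le (hlast v) (Nat.le_succ _), ?_⟩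
  intro i u hu
  have hui : k u = i := by
    unfold EE at hu
    simpa using hu
  by_contra hH
  rw [← hui] at hH
  have h1 := W_up hchg hgain a hcol b l0 hb hb1 hl0 J (N + 1) N δ hδ.le hδ1 hJ' k u (hlast u) hH
  have h2 := hmin (up k u) (by
    intro v
    by_cases hv : v = u
    · rw [hv, up_self]
      have := hlast u
      omega
    · rw [up_ne _ _ _ hv]
      exact hkN v)
  linarith

end Pool.Agent.Helper2.KF
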